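import Pool.Agent.Helper92.BO.GoalsA

/-!
# Packet BO-FOU: the four functions theorem on the line
-/

namespace Pool.Agent.Helper39.BO

open MeasureTheory Pool.Agent.Helper92.BO

lemma fou_num {A B C D : ℝ} (hC : 0 ≤ C) (hD : 0 ≤ D) (hA0 : 0 ≤ A) (hB0 : 0 ≤ B) (hA : A ≤ C)
    (hB : B ≤ C) (h : A * B ≤ C * D) : A + B ≤ C + D := by
  rcases hC.eq_or_lt with h0 | h0
  · have h1 : A = 0 := le_antisymm (hA.trans h0.symm.le) hA0
    have h2 : B = 0 := le_antisymm (hB.trans h0.symm.le) hB0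
    rw [h1, h2]
    linarith
  · have h1 : 0 ≤ (C - A) * (C - B) := mul_nonneg (by linarith) (by linarith)
    have h2 : C * (A + B) ≤ C * (C + D) := by nlinarith
    exact le_of_mul_le_mul_left h2 h0

lemma fou_pt (f1 f2 f3 f4 : ℝ → ℝ) (p1 : ∀ x, 0 ≤ f1 x) (p2 : ∀ x, 0 ≤ f2 x)
    (p3 : ∀ x, 0 ≤ f3 x) (p4 : ∀ x, 0 ≤ f4 x)
    (h : ∀ x x', f1 x * f2 x' ≤ f3 (max x x') * f4 (min x x')) (x x' : ℝ) (hx : x ≤ x') :
    f1 x * f2 x' + f1 x' * f2 x ≤ f3 x' * f4 x + f3 x * f4 x' := by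
  have a1 := h x x'
  have a2 := h x' x
  have a3 := h x x
  have a4 := h x' x'
  rw [max_eq_right hx, min_eq_left hx] at a1
  rw [max_eq_left hx, min_eq_right hx] at a2
  rw [max_self, min_self] at a3 a4
  refine fou_num (mul_nonneg (p3 _) (p4 _)) (mul_nonneg (p3 _) (p4 _)) (mul_nonneg (p1 _) (p2 _))
    (mul_nonneg (p1 _) (p2 _)) a1 a2 ?_
  calc f1 x * f2 x' * (f1 x' * f2 x) = (f1 x * f2 x) * (f1 x' * f2 x') := by ring
    _ ≤ (f3 x * f4 x) * (f3 x' * f4 x') :=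
        mul_le_mul a3 a4 (mul_nonneg (p1 _) (p2 _)) (mul_nonneg (p3 _) (p4 _))
    _ = f3 x' * f4 x * (f3 x * f4 x') := by ring

theorem fou : FouStmt := by
  intro f1 f2 f3 f4 p1 p2 p3 p4 i1 i2 i3 i4 h
  have e12 := integral_prod_mul (μ := (volume : Measure ℝ)) (ν := (volume : Measure ℝ)) f1 f2
  have e21 := integral_prod_mul (μ := (volume : Measure ℝ)) (ν := (volume : Measure ℝ)) f2 f1
  have e34 := integral_prod_mul (μ := (volume : Measure ℝ)) (ν := (volume : Measure ℝ)) f3 f4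
  have e43 := integral_prod_mul (μ := (volume : Measure ℝ)) (ν := (volume : Measure ℝ)) f4 f3
  have j12 := i1.mul_prod i2
  have j21 := i2.mul_prod i1
  have j34 := i3.mul_prod i4
  have j43 := i4.mul_prod i3
  have key : ∫ z : ℝ × ℝ, (f1 z.1 * f2 z.2 + f2 z.1 * f1 z.2) ∂(volume.prod volume) ≤
      ∫ z : ℝ × ℝ, (f3 z.1 * f4 z.2 + f4 z.1 * f3 z.2) ∂(volume.prod volume) := by
    refine integral_mono (j12.add j21) (j34.add j43) fun z => ?_
    show f1 z.1 * f2 z.2 + f2 z.1 * f1 z.2 ≤ f3 z.1 * f4 z.2 + f4 z.1 * f3 z.2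
    rcases le_total z.1 z.2 with hz | hz
    · have := fou_pt f1 f2 f3 f4 p1 p2 p3 p4 h z.1 z.2 hz
      linarith [mul_comm (f2 z.1) (f1 z.2), mul_comm (f4 z.1) (f3 z.2)]
    · have := fou_pt f1 f2 f3 f4 p1 p2 p3 p4 h z.2 z.1 hz
      linarith [mul_comm (f2 z.1) (f1 z.2), mul_comm (f4 z.1) (f3 z.2)]
  rw [integral_add j12 j21, integral_add j34 j43, e12, e21, e34, e43] at key
  linarith [mul_comm (∫ x, f2 x) (∫ x, f1 x), mul_comm (∫ x, f4 x) (∫ x, f3 x)]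

end Pool.Agent.Helper39.BO
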