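import Pool.Agent.Helper92.BO.GoalsF
import Pool.Agent.Helper38.FR.PTF

/-!
Packet BO-PTP of helper92: the weights are computed in polynomial time.
-/

namespace Pool.Agent.Helper39.BO

open Pool.Agent.Helper81.CC Pool.Agent.Bin Pool.Agent.Helper92.VP Pool.Agent.Helper92.FR
open Pool.Agent.Helper92.BO Pool.Agent.Helper38.FR

/-- one step of the computation of the powers -/
def pstep (fl : List ℕ) (m : ℕ) (P : List BN) : List BN :=
  (List.range (m + 1)).map fun k =>
    BN.sum ((List.range (k + 1)).map fun j => BN.ofNat (fl.getD j 0) * P.getD (k - j) ⟨0⟩)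

theorem sum_range_getD_le (fl : List ℕ) : ∀ K : ℕ,
    ((List.range K).map fun j => fl.getD j 0).sum ≤ fl.sum := by
  induction fl with
  | nil =>
    intro K
    simp
  | cons a fl ih =>
    intro K
    cases K with
    | zero => simp
    | succ K =>
      rw [List.range_succ_eq_map]
      simp only [List.map_cons, List.map_map, List.sum_cons, List.getD_cons_zero]
      have := ih K
      have e : (List.map ((fun j => (a :: fl).getD j 0) ∘ Nat.succ) (List.range K)) =
          (List.range K).map fun j => fl.getD j 0 := by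
        apply List.map_congr_left
        intro j _
        simp
      rw [e]
      omega

theorem getD_val_le {P : List BN} {V : ℕ} (h : ∀ x ∈ P, x.val ≤ V) (k : ℕ) :
    (P.getD k ⟨0⟩).val ≤ V := by
  rcases Nat.lt_or_ge k P.length with hk | hk
  · rw [List.getD_eq_getElem _ _ hk]
    exact h _ (List.getElem_mem hk)
  · rw [List.getD_eq_default _ _ hk]
    exact Nat.zero_le _

theorem sum_mul_le (fl : List ℕ) (V : ℕ) (f : ℕ → ℕ) (hf : ∀ j, f j ≤ V) (l : List ℕ) :
    (l.map fun j => fl.getD j 0 * f j).sum ≤ (l.map fun j => fl.getD j 0).sum * V := by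
  induction l with
  | nil => simp
  | cons a l ih =>
    simp only [List.map_cons, List.sum_cons]
    have := Nat.mul_le_mul_left (fl.getD a 0) (hf a)
    rw [add_mul]
    omega

theorem pstep_le (fl : List ℕ) (m : ℕ) {P : List BN} {V : ℕ} (h : ∀ x ∈ P, x.val ≤ V) :
    ∀ x ∈ pstep fl m P, x.val ≤ fl.sum * V := by
  intro x hx
  unfold pstep at hx
  rw [List.mem_map] at hx
  obtain ⟨k, _, rfl⟩ := hx
  rw [BN.val_sum, List.map_map]
  have e : (List.map (BN.val ∘ fun j => BN.ofNat (fl.getD j 0) * P.getD (k - j) ⟨0⟩)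
      (List.range (k + 1))) =
      (List.range (k + 1)).map fun j => fl.getD j 0 * (P.getD (k - j) ⟨0⟩).val := by
    apply List.map_congr_left
    intro j _
    simp
  rw [e]
  exact (sum_mul_le fl V _ (fun j => getD_val_le h (k - j)) _).trans
    (Nat.mul_le_mul_right V (sum_range_getD_le fl (k + 1)))

theorem fold_le (fl : List ℕ) (m G : ℕ) (hG : fl.sum ≤ 2 ^ G) : ∀ (l : List ℕ) (s : List BN)
    (c : ℕ), s.length = m + 1 → (∀ x ∈ s, x.val ≤ 2 ^ c) →
    (l.foldl (fun P _ => pstep fl m P) s).length = m + 1 ∧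
    ∀ x ∈ l.foldl (fun P _ => pstep fl m P) s, x.val ≤ 2 ^ (c + G * l.length) := by
  intro l
  induction l with
  | nil => intro s c h1 h2; exact ⟨h1, by simpa using h2⟩
  | cons a l ih =>
    intro s c h1 h2
    simp only [List.foldl_cons]
    have h3 := ih (pstep fl m s) (c + G) (by simp [pstep]) (by
      intro x hx
      refine (pstep_le fl m h2 x hx).trans ?_
      rw [pow_add, mul_comm]
      exact Nat.mul_le_mul_left _ hG)
    refine ⟨h3.1, fun x hx => (h3.2 x hx).trans (le_of_eq ?_)⟩
    congr 1
    rw [List.length_cons]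
    ring

theorem sz_le_of_val_le {x : BN} {c : ℕ} (h : x.val ≤ 2 ^ c) : sz x ≤ 4 * (c + 1) + 1 := by
  apply sz_le_of_lt
  refine h.trans_lt ?_
  exact Nat.pow_lt_pow_right (by norm_num) (Nat.lt_succ_self c)

theorem sz_list_le {W : ℕ} : ∀ l : List BN, (∀ x ∈ l, sz x ≤ W) → sz l ≤ l.length * (W + 1) + 1 := by
  intro l
  induction l with
  | nil => intro _; simp
  | cons a l ih =>
    intro h
    have h1 := h a (by simp)
    have h2 := ih (fun x hx => h x (by simp [hx]))
    rw [sz_cons, List.length_cons, add_mul]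
    omega

variable {α : Type} [ToData α]

theorem pt_pw (fl : List ℕ) {m i : α → ℕ} (hm : PolyTime m) (hi : PolyTime i) :
    PolyTime (fun a => pw fl (m a) (i a)) := by
  obtain ⟨G, hG⟩ : ∃ G, fl.sum ≤ 2 ^ G := ⟨fl.sum, Nat.lt_two_pow_self.le⟩
  have h0 : PolyTime (fun a => (List.range (m a + 1)).map fun k =>
      if k = 0 then (⟨1⟩ : BN) else ⟨0⟩) := by
    fun_prop
  have hs : PolyTime (fun z : α × List BN × ℕ => pstep fl (m z.1) z.2.1) := by
    unfold pstep
    fun_prop
  refine PolyTime.foldl_bd (l := fun a => List.range (i a)) (by fun_prop) h0 hs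
    (B := fun a => (m a + 1) * ((4 * (G * i a + 1) + 1) + 1) + 1) ?_ ?_
  · have := PBd.nat hm
    have := PBd.nat hi
    exact ((((PBd.nat hm).add (PBd.const 1))).mul ((((PBd.const 4).mul
      (((PBd.const G).mul (PBd.nat hi)).add (PBd.const 1))).add (PBd.const 1)).add
        (PBd.const 1))).add (PBd.const 1)
  · intro a l' hl'
    have h1 := fold_le fl (m a) G hG l' ((List.range (m a + 1)).map fun k =>
      if k = 0 then (⟨1⟩ : BN) else ⟨0⟩) 0 (by simp) (by
        intro x hx
        rw [List.mem_map] at hx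
        obtain ⟨k, _, rfl⟩ := hx
        split <;> simp)
    have hlen : l'.length ≤ i a := by
      have := hl'.length_le
      simpa using this
    have h2 := sz_list_le (W := 4 * (G * i a + 1) + 1) _ (fun x hx => by
      have h3 := h1.2 x hx
      refine sz_le_of_val_le (h3.trans ?_)
      rw [zero_add]
      exact Nat.pow_le_pow_right (by norm_num) (Nat.mul_le_mul_left G hlen))
    rw [h1.1] at h2
    exact h2

@[fun_prop] theorem pt_wt (fl : List ℕ) (D : ℕ) {m i : α → ℕ} (hm : PolyTime m)
    (hi : PolyTime i) : PolyTime (fun a => wt fl D (m a) (i a)) := by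
  have h := pt_pw fl hm hi
  unfold wt
  fun_prop

/-- Packet BO-PTP. -/
theorem ptp : Pool.Agent.Helper92.BO.PtpStmt := by
  intro fl D α _ m hm
  unfold wts
  fun_prop

end Pool.Agent.Helper39.BO
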